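import Pool.Agent.helper97.KR.Spec

set_option autoImplicit false

namespace Pool.Agent.helper97.KR

open Finset Classical

noncomputable section

theorem CNE (hCE : CE_stmt) (hSP3 : SP3_stmt) : CNE_stmt := by
  intro V E ends S F x hG hx hdom hins
  have hxT : ∀ T ⊆ S.erase x, x ∉ T := fun T hT h => (Finset.mem_erase.1 (hT h)).1 rfl
  have hE : ∀ T ⊆ S.erase x,
      Pool.Agent.KU.E (fun u v => (F.filter fun e => ends e = s(u, v)).card) T = (ins ends F T).card := by
    intro T hT
    have h1 := (hCE V E ends F T x hG.loop (hxT T hT)).1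
    unfold Pool.Agent.KU.E
    simp only []
    rw [h1]
    omega
  have hI : ∀ T ⊆ S.erase x, (ins ends F (insert x T)).card
      = (ins ends F T).card + ∑ v ∈ T, (F.filter fun e => ends e = s(x, v)).card := by
    intro T hT
    exact (hCE V E ends F T x hG.loop (hxT T hT)).2
  obtain ⟨hF, hU⟩ := hSP3 V E ends S F hG
  have hf : ∀ T ⊆ S.erase x,
      Pool.Agent.KU.f (fun v => (F.filter fun e => ends e = s(x, v)).card)
        (fun u v => (F.filter fun e => ends e = s(u, v)).card) T
        = 3 * (T.card : ℤ) - ((ins ends F (insert x T)).card : ℤ) := by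
    intro T hT
    unfold Pool.Agent.KU.f
    rw [hE T hT, hI T hT]
    push_cast
    ring
  refine ⟨⟨?_, ?_⟩, ?_, ?_, ?_, ?_⟩
  · intro u v
    rw [Sym2.eq_swap]
  · intro v
    rw [Finset.card_eq_zero, Finset.filter_eq_empty_iff]
    intro e he h
    exact hG.loop e he (by rw [h]; exact Sym2.mk_isDiag_iff.2 rfl)
  · intro v hv
    obtain ⟨hvx, hvS⟩ := Finset.mem_erase.1 hv
    obtain ⟨e, he, h⟩ := hdom v hvS hvx
    exact Finset.card_pos.2 ⟨e, Finset.mem_filter.2 ⟨he, h⟩⟩
  · rw [hf _ (Finset.Subset.refl _), Finset.insert_erase hx]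
    have h1 : ins ends F S = F := by
      unfold ins
      exact Finset.filter_true_of_mem (fun e he v hv => hG.sub e he v hv)
    have h2 : (S.erase x).card + 1 = S.card := Finset.card_erase_add_one hx
    rw [h1]
    omega
  · intro T hT
    rw [hf T hT]
    have h1 : insert x T ⊆ S := by
      intro y hy
      rcases Finset.mem_insert.1 hy with h | h
      · rw [h]; exact hx
      · exact Finset.mem_of_mem_erase (hT h)
    have h2 := hU (insert x T) h1 (Finset.insert_nonempty _ _)
    have h3 : (insert x T).card = T.card + 1 := Finset.card_insert_of_notMem (hxT T hT)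
    omega
  · intro T hT h2
    rw [hE T hT]
    exact hins T hT h2

end

end Pool.Agent.helper97.KR
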